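import Pool.Agent.W_9f10ef_h38.Sat

/-!
# MP_9f10ef_co, hardness of recognition: graphs given by lists of edges
-/

set_option autoImplicit false

namespace Pool.Agent.W_9f10ef_h38

open W_MP_9f10ef_co Pool.Agent.PolyTime

/-! ### Codes of graphs -/

/-- A graph is given by its number `n` of vertices and a list of pairs of numbers. -/
abbrev GCode := ℕ × List (ℕ × ℕ)

/-- The graph given by `c = (n, l)`: the vertices are `0, …, n - 1`; two distinct vertices `i`, `j`
are adjacent iff `(i, j)` or `(j, i)` is in the list `l`. -/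
def graph (c : GCode) : SimpleGraph (Fin c.1) :=
  SimpleGraph.fromRel fun i j => ((i : ℕ), (j : ℕ)) ∈ c.2

/-- The code of a natural number as a bit string (unary). -/
def codeNat : ℕ → List Bool
  | 0 => [false]
  | n + 1 => true :: false :: codeNat n

/-- The code of a list of pairs as a bit string. -/
def codeEdges : List (ℕ × ℕ) → List Bool
  | [] => [false]
  | e :: l => true :: ((true :: (codeNat e.1 ++ codeNat e.2)) ++ codeEdges l)

/-- The code of a graph as a bit string. -/
def code (c : GCode) : List Bool := true :: (codeNat c.1 ++ codeEdges c.2)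

/-! ### The graph of a list of triples -/

/-- The edges of the triple number `t`. -/
def te (k m t : ℕ) (s : ℕ × ℕ × ℕ) : List (ℕ × ℕ) :=
  [(0, 3 + (k + (m + t))), (1, 3 + (k + t)), (3 + (k + t), 3 + s.1), (3 + (k + t), 3 + s.2.1),
    (3 + (k + (m + t)), 3 + s.1), (3 + (k + (m + t)), 3 + s.2.2),
    (3 + (k + t), 3 + (k + (m + t)))]

/-- The edges. -/
def edges (k : ℕ) (T : List (ℕ × ℕ × ℕ)) : List (ℕ × ℕ) :=
  (0, 2) :: (1, 2) :: ((List.range k).flatMap (fun i => [(0, 3 + i), (1, 3 + i)]) ++
    (List.range T.length).flatMap (fun t => te k T.length t ((T[t]?).getD (0, 0, 0))))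

/-- The code of the graph. -/
def mkCode (k : ℕ) (T : List (ℕ × ℕ × ℕ)) : GCode :=
  (3 + (k + (T.length + T.length)), edges k T)

/-- The numbers of the vertices. -/
def ν (k m : ℕ) : Vx (Fin k) (Fin m) → ℕ
  | .d => 0
  | .r => 1
  | .b => 2
  | .z i => 3 + i
  | .l t => 3 + (k + t)
  | .y t => 3 + (k + (m + t))

theorem ν_lt (k m : ℕ) (u : Vx (Fin k) (Fin m)) : ν k m u < 3 + (k + (m + m)) := by
  cases u with
  | d => simp only [ν]; omega
  | r => simp only [ν]; omega
  | b => simp only [ν]; omega
  | z i => have := i.2; simp only [ν]; omega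
  | l t => have := t.2; simp only [ν]; omega
  | y t => have := t.2; simp only [ν]; omega

theorem ν_injective (k m : ℕ) : Function.Injective (ν k m) := by
  intro u v h
  cases u with
  | d =>
    cases v with
    | d => rfl
    | r => simp only [ν] at h; omega
    | b => simp only [ν] at h; omega
    | z j => simp only [ν] at h; omega
    | l j => simp only [ν] at h; omega
    | y j => simp only [ν] at h; omega
  | r =>
    cases v with
    | d => simp only [ν] at h; omega
    | r => rfl
    | b => simp only [ν] at h; omega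
    | z j => simp only [ν] at h; omega
    | l j => simp only [ν] at h; omega
    | y j => simp only [ν] at h; omega
  | b =>
    cases v with
    | d => simp only [ν] at h; omega
    | r => simp only [ν] at h; omega
    | b => rfl
    | z j => simp only [ν] at h; omega
    | l j => simp only [ν] at h; omega
    | y j => simp only [ν] at h; omega
  | z i =>
    have hi := i.2
    cases v with
    | d => simp only [ν] at h; omega
    | r => simp only [ν] at h; omega
    | b => simp only [ν] at h; omega
    | z j => simp only [ν] at h; exact congrArg _ (Fin.ext (by omega))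
    | l j => simp only [ν] at h; omega
    | y j => simp only [ν] at h; omega
  | l i =>
    have hi := i.2
    cases v with
    | d => simp only [ν] at h; omega
    | r => simp only [ν] at h; omega
    | b => simp only [ν] at h; omega
    | z j => have hj := j.2; simp only [ν] at h; omega
    | l j => simp only [ν] at h; exact congrArg _ (Fin.ext (by omega))
    | y j => simp only [ν] at h; omega
  | y i =>
    have hi := i.2
    cases v with
    | d => simp only [ν] at h; omega
    | r => simp only [ν] at h; omega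
    | b => simp only [ν] at h; omega
    | z j => have hj := j.2; simp only [ν] at h; omega
    | l j => have hj := j.2; simp only [ν] at h; omega
    | y j => simp only [ν] at h; exact congrArg _ (Fin.ext (by omega))

theorem ν_surj (k m : ℕ) {j : ℕ} (hj : j < 3 + (k + (m + m))) : ∃ u, ν k m u = j := by
  by_cases h0 : j = 0
  · exact ⟨.d, h0.symm⟩
  by_cases h1 : j = 1
  · exact ⟨.r, h1.symm⟩
  by_cases h2 : j = 2
  · exact ⟨.b, h2.symm⟩
  by_cases h3 : j < 3 + k
  · exact ⟨.z ⟨j - 3, by omega⟩, by simp only [ν]; omega⟩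
  by_cases h4 : j < 3 + (k + m)
  · exact ⟨.l ⟨j - (3 + k), by omega⟩, by simp only [ν]; omega⟩
  · exact ⟨.y ⟨j - (3 + (k + m)), by omega⟩, by simp only [ν]; omega⟩

section

variable {k : ℕ} {T : List (ℕ × ℕ × ℕ)} {hT : ∀ t ∈ T, t.1 < k ∧ t.2.1 < k ∧ t.2.2 < k}

theorem mem_te {t : ℕ} (ht : t < T.length) {e : ℕ × ℕ}
    (he : e ∈ te k T.length t ((T[t]?).getD (0, 0, 0))) : e ∈ edges k T :=
  List.mem_cons_of_mem _ (List.mem_cons_of_mem _ (List.mem_append_right _
    (List.mem_flatMap.2 ⟨t, List.mem_range.2 ht, he⟩)))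

theorem mem_ze {i : ℕ} (hi : i < k) {e : ℕ × ℕ}
    (he : e ∈ [(0, 3 + i), (1, 3 + i)]) : e ∈ edges k T :=
  List.mem_cons_of_mem _ (List.mem_cons_of_mem _ (List.mem_append_left _
    (List.mem_flatMap.2 ⟨i, List.mem_range.2 hi, he⟩)))

theorem edges_of_ed {u v : Vx (Fin k) (Fin T.length)} (h : Ed (fA k T hT) (fC k T hT) (fD k T hT) u v) :
    (ν k T.length u, ν k T.length v) ∈ edges k T := by
  cases h with
  | db => exact List.mem_cons_self
  | rb => exact List.mem_cons_of_mem _ List.mem_cons_self
  | dz i => exact mem_ze i.2 (by simp [ν])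
  | rz i => exact mem_ze i.2 (by simp [ν])
  | dy t => exact mem_te t.2 (by simp [ν, te])
  | rl t => exact mem_te t.2 (by simp [ν, te])
  | la t => exact mem_te t.2 (by simp [ν, te, fA])
  | lc t => exact mem_te t.2 (by simp [ν, te, fC])
  | ya t => exact mem_te t.2 (by simp [ν, te, fA])
  | yc t => exact mem_te t.2 (by simp [ν, te, fD])
  | ly t => exact mem_te t.2 (by simp [ν, te])

theorem ed_of_edges {p q : ℕ} (h : (p, q) ∈ edges k T) :
    ∃ u v, Ed (fA k T hT) (fC k T hT) (fD k T hT) u v ∧ ν k T.length u = p ∧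
      ν k T.length v = q := by
  unfold edges at h
  rcases List.mem_cons.1 h with h | h
  · simp only [Prod.mk.injEq] at h
    exact ⟨_, _, Ed.db, h.1.symm, h.2.symm⟩
  rcases List.mem_cons.1 h with h | h
  · simp only [Prod.mk.injEq] at h
    exact ⟨_, _, Ed.rb, h.1.symm, h.2.symm⟩
  rcases List.mem_append.1 h with h | h
  · obtain ⟨i, hi, h⟩ := List.mem_flatMap.1 h
    rw [List.mem_range] at hi
    simp only [List.mem_cons, Prod.mk.injEq, List.not_mem_nil, or_false] at h
    rcases h with h | h
    · exact ⟨.d, .z ⟨i, hi⟩, Ed.dz _, h.1.symm, h.2.symm⟩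
    · exact ⟨.r, .z ⟨i, hi⟩, Ed.rz _, h.1.symm, h.2.symm⟩
  · obtain ⟨t, ht, h⟩ := List.mem_flatMap.1 h
    rw [List.mem_range] at ht
    rw [List.getElem?_eq_getElem ht, Option.getD_some] at h
    simp only [te, List.mem_cons, Prod.mk.injEq, List.not_mem_nil, or_false] at h
    rcases h with h | h | h | h | h | h | h
    · exact ⟨.d, .y ⟨t, ht⟩, Ed.dy _, h.1.symm, h.2.symm⟩
    · exact ⟨.r, .l ⟨t, ht⟩, Ed.rl _, h.1.symm, h.2.symm⟩
    · exact ⟨.l ⟨t, ht⟩, .z (fA k T hT ⟨t, ht⟩), Ed.la _, h.1.symm, h.2.symm⟩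
    · exact ⟨.l ⟨t, ht⟩, .z (fC k T hT ⟨t, ht⟩), Ed.lc _, h.1.symm, h.2.symm⟩
    · exact ⟨.y ⟨t, ht⟩, .z (fA k T hT ⟨t, ht⟩), Ed.ya _, h.1.symm, h.2.symm⟩
    · exact ⟨.y ⟨t, ht⟩, .z (fD k T hT ⟨t, ht⟩), Ed.yc _, h.1.symm, h.2.symm⟩
    · exact ⟨.l ⟨t, ht⟩, .y ⟨t, ht⟩, Ed.ly _, h.1.symm, h.2.symm⟩

variable (k T hT) in
/-- The numbering is an isomorphism. -/
noncomputable def isoG : graph (mkCode k T) ≃g gr (fA k T hT) (fC k T hT) (fD k T hT) :=
  RelIso.symm
    { toEquiv := Equiv.ofBijective (fun u => (⟨ν k T.length u, ν_lt _ _ u⟩ : Fin (mkCode k T).1))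
        ⟨fun u v h => ν_injective _ _ (congrArg Fin.val h), fun j => by
          obtain ⟨u, hu⟩ := ν_surj k T.length j.2
          exact ⟨u, Fin.ext hu⟩⟩
      map_rel_iff' := by
        intro u v
        show (graph (mkCode k T)).Adj (⟨ν k T.length u, ν_lt _ _ u⟩ : Fin (mkCode k T).1)
          (⟨ν k T.length v, ν_lt _ _ v⟩ : Fin (mkCode k T).1) ↔ _
        unfold graph
        rw [SimpleGraph.fromRel_adj, gr_adj]
        constructor
        · rintro ⟨-, h | h⟩
          · obtain ⟨u', v', he, hu, hv⟩ := ed_of_edges (hT := hT) h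
            rw [ν_injective _ _ hu, ν_injective _ _ hv] at he
            exact Or.inl he
          · obtain ⟨u', v', he, hu, hv⟩ := ed_of_edges (hT := hT) h
            rw [ν_injective _ _ hu, ν_injective _ _ hv] at he
            exact Or.inr he
        · intro h
          have hne : u ≠ v := by
            rintro rfl
            rcases h with h | h <;> cases h
          refine ⟨fun e => hne (ν_injective _ _ (congrArg Fin.val e)), ?_⟩
          rcases h with h | h
          · exact Or.inl (edges_of_ed h)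
          · exact Or.inr (edges_of_ed h) }

end

/-! ### The reduction -/

theorem contr_iso {V V' W : Type} {G : SimpleGraph V} {G' : SimpleGraph V'} {H : SimpleGraph W}
    (e : G' ≃g G) (h : ContractibleTo G H) : ContractibleTo G' H := by
  obtain ⟨F, hF⟩ := h
  exact ⟨_, IsCtr.iso e (show IsCtr G H F from hF)⟩

/-- The code of the graph of a formula. -/
def gOf (φ : CNF ℕ) : GCode := mkCode (nms φ).length (trN φ)

/-- The numbering of the graph of a formula. -/
noncomputable def isoF (φ : CNF ℕ) : graph (gOf φ) ≃g gr (fA _ (trN φ) (fun _ => trN_lt))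
    (fC _ (trN φ) (fun _ => trN_lt)) (fD _ (trN φ) (fun _ => trN_lt)) := isoG _ _ _

theorem gOf_connected (φ : CNF ℕ) : (graph (gOf φ)).Connected :=
  (SimpleGraph.Iso.connected_iff (isoF φ)).2 gr_connected

theorem sat_iff_not_inGcs (φ : CNF ℕ) : φ.Sat ↔ ¬ InGcs (graph (gOf φ)) := by
  rw [sat_iff_sol]
  constructor
  · rintro ⟨f, hf⟩
    have hz := special φ
    have h01 : f ⟨_, List.idxOf_lt_length_iff.2 (c0_mem φ)⟩ ≠
        f ⟨_, List.idxOf_lt_length_iff.2 (c1_mem φ)⟩ := by
      intro e
      obtain ⟨⟨i, j, hij⟩, hf⟩ := hf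
      have key : ∀ k, f k = f ⟨_, List.idxOf_lt_length_iff.2 (c0_mem φ)⟩ := by
        intro k
        obtain ⟨t, h1, h2, h3⟩ := hz k
        have := hf t
        rw [h1, h2, h3, ← e, or_self] at this
        exact this
      exact hij ((key i).trans (key j).symm)
    exact not_inGcs_of_contractible (gOf_connected φ)
      (Or.inr (Or.inr ⟨3, le_rfl, contr_iso (isoF φ) (contract_of_sol h01 hf.2 hz)⟩))
  · intro h
    by_contra hno
    refine h (inGcs_of_not_contractible (gOf_connected φ)
      (fun hc => no_P5 (contr_iso (isoF φ).symm hc))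
      (fun hc => no_banner (contr_iso (isoF φ).symm hc)) ?_)
    intro m n h2 hmn hc
    obtain ⟨F, hF⟩ := contr_iso (isoF φ).symm hc
    exact hno (sol_of_kmn h2 hmn (show IsCtr _ _ F from hF))

end Pool.Agent.W_9f10ef_h38
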