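import Pool.Agent.PolyTimeCL.CookLevin
import Pool.Agent.W_9f10ef_h38.Code

/-!
# MP_9f10ef_co, hardness of recognition: the reduction is computable in polynomial time
-/

set_option autoImplicit false

namespace Pool.Agent.W_9f10ef_h38

open Pool.Agent.PolyTime

section

variable {α : Type*} [TEnc α]

@[fun_prop]
theorem pf_cl {f : α → CNF ℕ} {j : α → ℕ} (hf : PF f) (hj : PF j) :
    PF (fun x => cl (f x) (j x)) := by
  unfold cl
  fun_prop

@[fun_prop]
theorem pf_len {f : α → CNF ℕ} {j : α → ℕ} (hf : PF f) (hj : PF j) :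
    PF (fun x => len (f x) (j x)) := by
  unfold len
  fun_prop

@[fun_prop]
theorem pf_lit {f : α → CNF ℕ} {j k : α → ℕ} (hf : PF f) (hj : PF j) (hk : PF k) :
    PF (fun x => lit (f x) (j x) (k x)) := by
  unfold lit
  fun_prop

@[fun_prop]
theorem pf_lt {x : α → ℕ} {s : α → Bool} (hx : PF x) (hs : PF s) :
    PF (fun a => lt (x a) (s a)) := by
  unfold lt
  fun_prop

@[fun_prop]
theorem pf_sv {j k : α → ℕ} (hj : PF j) (hk : PF k) :
    PF (fun a => sv (j a) (k a)) := by
  unfold sv
  fun_prop

@[fun_prop]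
theorem pf_trV {f : α → CNF ℕ} (hf : PF f) : PF (fun x => trV (f x)) := by
  unfold trV
  fun_prop

@[fun_prop]
theorem pf_trC {f : α → CNF ℕ} (hf : PF f) : PF (fun x => trC (f x)) := by
  unfold trC
  fun_prop

@[fun_prop]
theorem pf_trs {f : α → CNF ℕ} (hf : PF f) : PF (fun x => trs (f x)) := by
  unfold trs
  fun_prop

@[fun_prop]
theorem pf_nms {f : α → CNF ℕ} (hf : PF f) : PF (fun x => nms (f x)) := by
  unfold nms
  fun_prop

@[fun_prop]
theorem pf_trA {f : α → CNF ℕ} (hf : PF f) : PF (fun x => trA (f x)) := by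
  unfold trA
  fun_prop

theorem idx_eq (a : Nm) (l : List Nm) :
    List.idxOf a l = @List.idxOf Nm instBEqOfDecidableEq a l := by
  congr 1
  exact lawful_beq_subsingleton _ _

theorem pf_idx {a : α → Nm} {l : α → List Nm} (ha : PF a) (hl : PF l) :
    PF (fun x => List.idxOf (a x) (l x)) := by
  have h := PF.idxOf ha hl
  simp only [← idx_eq] at h
  exact h

@[fun_prop]
theorem pf_trN {f : α → CNF ℕ} (hf : PF f) : PF (fun x => trN (f x)) := by
  unfold trN
  have h0 : PF (fun p : α × Nm × Nm × Nm => nms (f p.1)) := by fun_prop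
  exact PF.map (f := fun x t => (List.idxOf t.1 (nms (f x)), List.idxOf t.2.1 (nms (f x)),
    List.idxOf t.2.2 (nms (f x))))
    (PF.pair (pf_idx (by fun_prop) h0) (PF.pair (pf_idx (by fun_prop) h0)
      (pf_idx (by fun_prop) h0))) (pf_trA hf)

@[fun_prop]
theorem pf_te {k m t : α → ℕ} {s : α → ℕ × ℕ × ℕ} (hk : PF k) (hm : PF m) (ht : PF t)
    (hs : PF s) : PF (fun x => te (k x) (m x) (t x) (s x)) := by
  unfold te
  fun_prop

@[fun_prop]
theorem pf_edges {k : α → ℕ} {T : α → List (ℕ × ℕ × ℕ)} (hk : PF k) (hT : PF T) :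
    PF (fun x => edges (k x) (T x)) := by
  unfold edges
  fun_prop

/-- The reduction is polynomial-time computable. -/
theorem pf_gOf {f : α → CNF ℕ} (hf : PF f) : PF (fun x => gOf (f x)) := by
  unfold gOf mkCode
  fun_prop

end

/-! ### The code -/

theorem codeNat_eq (n : ℕ) : codeNat n = (TEnc.enc n).enc := by
  induction n with
  | zero => rfl
  | succ n ih => rw [codeNat, ih]; rfl

theorem codeEdges_eq (l : List (ℕ × ℕ)) : codeEdges l = (TEnc.enc l).enc := by
  induction l with
  | nil => rfl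
  | cons a l ih => rw [codeEdges, ih, codeNat_eq, codeNat_eq]; rfl

theorem code_eq (c : GCode) : code c = bits c := by
  unfold code
  rw [codeNat_eq, codeEdges_eq]
  rfl

theorem code_injective : Function.Injective code := by
  intro I J h
  rw [code_eq, code_eq] at h
  exact TEnc.inj (T.enc_injective h)

end Pool.Agent.W_9f10ef_h38
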