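import Pool.Agent.W_MP_9f10ef_co.Bridge

/-!
# MP_9f10ef_co, hardness of recognition: the graph of a system of triples

Let `A, C, D : τ → ζ`.  The graph `gr A C D` has the vertices `d`, `r`, `b`, `z i` (`i : ζ`),
`l t` and `y t` (`t : τ`).  Here `d` is adjacent to `b`, all `z i` and all `y t`; `r` is adjacent
to `b`, all `z i` and all `l t`; `l t` is adjacent to `z (A t)` and `z (C t)`; `y t` is adjacent to
`z (A t)` and `z (D t)`; and `l t` is adjacent to `y t`.

* If `f : ζ → Bool` is not constant and `f (A t) ∈ {f (C t), f (D t)}` for all `t` then (with a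
  connectedness condition) the graph is contractible to `K_{2,3}`.
* If there is no such `f` then the graph is contractible neither to `P5` nor to the banner nor to
  any `K_{m,n}`, `2 ≤ m < n`.
-/

set_option autoImplicit false

namespace Pool.Agent.W_9f10ef_h38

open W_MP_9f10ef_co

/-! ### Contractions -/

section ctr

variable {V V' W : Type} {G : SimpleGraph V} {G' : SimpleGraph V'} {H : SimpleGraph W} {F : V → W}

/-- `F` is a contraction of `G` to `H`. -/
def IsCtr (G : SimpleGraph V) (H : SimpleGraph W) (F : V → W) : Prop :=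
  (∀ b, (G.induce (F ⁻¹' {b})).Connected) ∧
    ∀ a b, a ≠ b → (H.Adj a b ↔ ∃ u v, F u = a ∧ F v = b ∧ G.Adj u v)

theorem IsCtr.surj (h : IsCtr G H F) (p : W) : ∃ u, F u = p := by
  obtain ⟨⟨x, hx⟩⟩ := (h.1 p).nonempty
  exact ⟨x, hx⟩

theorem IsCtr.edge (h : IsCtr G H F) {u v : V} (huv : G.Adj u v) :
    F u = F v ∨ H.Adj (F u) (F v) := by
  by_cases he : F u = F v
  · exact Or.inl he
  · exact Or.inr ((h.2 _ _ he).2 ⟨u, v, rfl, rfl, huv⟩)

/-- Two different vertices of the same part: the first one has a neighbour in the part. -/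
theorem IsCtr.nbr (h : IsCtr G H F) {u v : V} (huv : F u = F v) (hne : u ≠ v) :
    ∃ w, G.Adj u w ∧ F w = F u := by
  obtain ⟨p⟩ := (h.1 (F u)).preconnected ⟨u, rfl⟩ ⟨v, huv.symm⟩
  cases p with
  | nil => exact absurd rfl hne
  | @cons _ w _ h1 _ => exact ⟨w.1, h1, w.2⟩

theorem IsCtr.iso (e : G' ≃g G) (h : IsCtr G H F) : IsCtr G' H (fun v => F (e v)) := by
  constructor
  · intro p
    let e' : (G'.induce ((fun v => F (e v)) ⁻¹' {p})) ≃g (G.induce (F ⁻¹' {p})) :=
      { toFun := fun x => ⟨e x.1, x.2⟩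
        invFun := fun x => ⟨e.symm x.1, by
          have h1 : F x.1 = p := x.2
          show F (e (e.symm x.1)) = p
          rw [RelIso.apply_symm_apply]
          exact h1⟩
        left_inv := fun x => Subtype.ext (RelIso.symm_apply_apply e x.1)
        right_inv := fun x => Subtype.ext (RelIso.apply_symm_apply e x.1)
        map_rel_iff' := by
          intro x y
          exact e.map_rel_iff }
    exact (SimpleGraph.Iso.connected_iff e').2 (h.1 p)
  · intro a b hab
    rw [h.2 a b hab]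
    constructor
    · rintro ⟨u, v, hu, hv, huv⟩
      refine ⟨e.symm u, e.symm v, ?_, ?_, ?_⟩
      · show F (e (e.symm u)) = a
        rw [RelIso.apply_symm_apply]; exact hu
      · show F (e (e.symm v)) = b
        rw [RelIso.apply_symm_apply]; exact hv
      · exact e.symm.map_rel_iff.2 huv
    · rintro ⟨u, v, hu, hv, huv⟩
      exact ⟨e u, e v, hu, hv, e.map_rel_iff.2 huv⟩

end ctr

/-! ### The graph -/

/-- The vertices. -/
inductive Vx (ζ τ : Type) : Type
  | d : Vx ζ τ
  | r : Vx ζ τ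
  | b : Vx ζ τ
  | z : ζ → Vx ζ τ
  | l : τ → Vx ζ τ
  | y : τ → Vx ζ τ

variable {ζ τ : Type}

/-- The edges, with a direction. -/
inductive Ed (A C D : τ → ζ) : Vx ζ τ → Vx ζ τ → Prop
  | db : Ed A C D .d .b
  | rb : Ed A C D .r .b
  | dz (i : ζ) : Ed A C D .d (.z i)
  | rz (i : ζ) : Ed A C D .r (.z i)
  | dy (t : τ) : Ed A C D .d (.y t)
  | rl (t : τ) : Ed A C D .r (.l t)
  | la (t : τ) : Ed A C D (.l t) (.z (A t))
  | lc (t : τ) : Ed A C D (.l t) (.z (C t))
  | ya (t : τ) : Ed A C D (.y t) (.z (A t))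
  | yc (t : τ) : Ed A C D (.y t) (.z (D t))
  | ly (t : τ) : Ed A C D (.l t) (.y t)

/-- The graph. -/
def gr (A C D : τ → ζ) : SimpleGraph (Vx ζ τ) where
  Adj u v := Ed A C D u v ∨ Ed A C D v u
  symm := ⟨fun _ _ h => h.symm⟩
  loopless := ⟨fun u h => by
    rcases h with h | h <;> cases h⟩

variable {A C D : τ → ζ}

theorem gr_adj {u v : Vx ζ τ} : (gr A C D).Adj u v ↔ Ed A C D u v ∨ Ed A C D v u := Iff.rfl

theorem adj_of {u v : Vx ζ τ} (h : Ed A C D u v) : (gr A C D).Adj u v := Or.inl h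

/-- The symmetry of the construction. -/
def sw : Vx ζ τ → Vx ζ τ
  | .d => .r
  | .r => .d
  | .b => .b
  | .z i => .z i
  | .l t => .y t
  | .y t => .l t

theorem sw_sw (u : Vx ζ τ) : sw (sw u) = u := by cases u <;> rfl

theorem sw_ed {u v : Vx ζ τ} (h : Ed A C D u v) : (gr A D C).Adj (sw u) (sw v) := by
  cases h with
  | db => exact Or.inl .rb
  | rb => exact Or.inl .db
  | dz i => exact Or.inl (.rz i)
  | rz i => exact Or.inl (.dz i)
  | dy t => exact Or.inl (.rl t)
  | rl t => exact Or.inl (.dy t)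
  | la t => exact Or.inl (.ya t)
  | lc t => exact Or.inl (.yc t)
  | ya t => exact Or.inl (.la t)
  | yc t => exact Or.inl (.lc t)
  | ly t => exact Or.inr (.ly t)

theorem sw_adj {u v : Vx ζ τ} (h : (gr A C D).Adj u v) : (gr A D C).Adj (sw u) (sw v) := by
  rcases h with h | h
  · exact sw_ed h
  · exact (sw_ed h).symm

/-- The symmetry as an isomorphism. -/
def swIso : gr A D C ≃g gr A C D where
  toFun := sw
  invFun := sw
  left_inv := sw_sw
  right_inv := sw_sw
  map_rel_iff' := by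
    intro u v
    constructor
    · intro h
      have h1 := sw_adj (A := A) (C := C) (D := D) h
      change (gr A D C).Adj (sw (sw u)) (sw (sw v)) at h1
      rwa [sw_sw, sw_sw] at h1
    · exact fun h => sw_adj h

theorem gr_connected : (gr A C D).Connected := by
  have hr : (gr A C D).Reachable .d .r :=
    (SimpleGraph.Adj.reachable (adj_of Ed.db)).trans
      (SimpleGraph.Adj.reachable (adj_of Ed.rb)).symm
  have key : ∀ u, (gr A C D).Reachable .d u := by
    intro u
    cases u with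
    | d => exact SimpleGraph.Reachable.refl _
    | r => exact hr
    | b => exact SimpleGraph.Adj.reachable (adj_of Ed.db)
    | z i => exact SimpleGraph.Adj.reachable (adj_of (Ed.dz i))
    | l t => exact hr.trans (SimpleGraph.Adj.reachable (adj_of (Ed.rl t)))
    | y t => exact SimpleGraph.Adj.reachable (adj_of (Ed.dy t))
  have : Nonempty (Vx ζ τ) := ⟨.d⟩
  exact (SimpleGraph.connected_iff _).2 ⟨fun u v => (key u).symm.trans (key v), this⟩

/-! ### Distances -/

theorem near {φ : Vx ζ τ → ℕ} (h : ∀ u v, (gr A C D).Adj u v → φ u ≤ φ v + 1) (u : Vx ζ τ) :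
    (φ u ≤ φ .d + 2 ∧ φ .d ≤ φ u + 2) ∧ (φ u ≤ φ .r + 2 ∧ φ .r ≤ φ u + 2) ∧
      ((φ u ≤ φ .d + 1 ∧ φ .d ≤ φ u + 1) ∨ (φ u ≤ φ .r + 1 ∧ φ .r ≤ φ u + 1)) := by
  have h1 := h .d .b (adj_of .db)
  have h1' := h .b .d (adj_of .db).symm
  have h2 := h .r .b (adj_of .rb)
  have h2' := h .b .r (adj_of .rb).symm
  cases u with
  | d => omega
  | r => omega
  | b => omega
  | z i =>
    have h3 := h .d (.z i) (adj_of (.dz i))
    have h3' := h (.z i) .d (adj_of (.dz i)).symm
    have h4 := h .r (.z i) (adj_of (.rz i))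
    have h4' := h (.z i) .r (adj_of (.rz i)).symm
    omega
  | l t =>
    have h3 := h .d (.z (A t)) (adj_of (.dz (A t)))
    have h3' := h (.z (A t)) .d (adj_of (.dz (A t))).symm
    have h4 := h .r (.l t) (adj_of (.rl t))
    have h4' := h (.l t) .r (adj_of (.rl t)).symm
    have h5 := h (.l t) (.z (A t)) (adj_of (.la t))
    have h5' := h (.z (A t)) (.l t) (adj_of (.la t)).symm
    omega
  | y t =>
    have h3 := h .r (.z (A t)) (adj_of (.rz (A t)))
    have h3' := h (.z (A t)) .r (adj_of (.rz (A t))).symm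
    have h4 := h .d (.y t) (adj_of (.dy t))
    have h4' := h (.y t) .d (adj_of (.dy t)).symm
    have h5 := h (.y t) (.z (A t)) (adj_of (.ya t))
    have h5' := h (.z (A t)) (.y t) (adj_of (.ya t)).symm
    omega

theorem dist_le {φ : Vx ζ τ → ℕ} (h : ∀ u v, (gr A C D).Adj u v → φ u ≤ φ v + 1)
    (u v : Vx ζ τ) : φ u ≤ φ v + 3 := by
  have h1 := near h u
  have h2 := near h v
  omega

/-- Only a vertex `l t` and a vertex `y s` can have distance three. -/
theorem dist_eq {φ : Vx ζ τ → ℕ} (h : ∀ u v, (gr A C D).Adj u v → φ u ≤ φ v + 1)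
    (u v : Vx ζ τ) (h3 : φ u = φ v + 3) :
    (∃ t s, u = .l t ∧ v = .y s) ∨ (∃ t s, u = .y t ∧ v = .l s) := by
  have h1 := near h u
  have h2 := near h v
  have hd : ∀ w : Vx ζ τ, (gr A C D).Adj .d w → φ w ≤ φ .d + 1 ∧ φ .d ≤ φ w + 1 :=
    fun w hw => ⟨h _ _ hw.symm, h _ _ hw⟩
  have hr : ∀ w : Vx ζ τ, (gr A C D).Adj .r w → φ w ≤ φ .r + 1 ∧ φ .r ≤ φ w + 1 :=
    fun w hw => ⟨h _ _ hw.symm, h _ _ hw⟩
  cases u with
  | d => omega
  | r => omega
  | b =>
    have e1 := hd _ (adj_of .db)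
    have e2 := hr _ (adj_of .rb)
    cases v with
    | d => omega
    | r => omega
    | b => omega
    | z i => have e3 := hd _ (adj_of (.dz i)); omega
    | l t => have e3 := hr _ (adj_of (.rl t)); omega
    | y t => have e3 := hd _ (adj_of (.dy t)); omega
  | z j =>
    have e1 := hd _ (adj_of (.dz j))
    have e2 := hr _ (adj_of (.rz j))
    cases v with
    | d => omega
    | r => omega
    | b => have e3 := hd _ (adj_of .db); omega
    | z i => have e3 := hd _ (adj_of (.dz i)); omega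
    | l t => have e3 := hr _ (adj_of (.rl t)); omega
    | y t => have e3 := hd _ (adj_of (.dy t)); omega
  | l s =>
    have e2 := hr _ (adj_of (.rl s))
    cases v with
    | d => omega
    | r => omega
    | b => have e3 := hr _ (adj_of .rb); omega
    | z i => have e3 := hr _ (adj_of (.rz i)); omega
    | l t => have e3 := hr _ (adj_of (.rl t)); omega
    | y t => exact Or.inl ⟨_, _, rfl, rfl⟩
  | y s =>
    have e1 := hd _ (adj_of (.dy s))
    cases v with
    | d => omega
    | r => omega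
    | b => have e3 := hd _ (adj_of .db); omega
    | z i => have e3 := hd _ (adj_of (.dz i)); omega
    | l t => exact Or.inr ⟨_, _, rfl, rfl⟩
    | y t => have e3 := hd _ (adj_of (.dy t)); omega

/-! ### No contraction to `P5` -/

theorem no_P5 : ¬ ContractibleTo (gr A C D) (SimpleGraph.pathGraph 5) := by
  rintro ⟨F, hF⟩
  have h : IsCtr (gr A C D) (SimpleGraph.pathGraph 5) F := hF
  have h1 : ∀ u v, (gr A C D).Adj u v → (F u : ℕ) ≤ (F v : ℕ) + 1 := by
    intro u v huv
    rcases h.edge huv with he | he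
    · rw [he]; omega
    · rw [SimpleGraph.pathGraph_adj] at he
      omega
  obtain ⟨u, hu⟩ := h.surj 4
  obtain ⟨v, hv⟩ := h.surj 0
  have h2 := dist_le h1 u v
  rw [hu, hv] at h2
  simp at h2

/-! ### No contraction to the banner -/

/-- The adjacency of the banner in decidable form. -/
def bnB (p q : Fin 5) : Prop :=
  p ≠ q ∧ (((p = 0 ∧ q = 1) ∨ (p = 1 ∧ q = 2) ∨ (p = 2 ∧ q = 3) ∨
    (p = 3 ∧ q = 0) ∨ (p = 0 ∧ q = 4)) ∨ ((q = 0 ∧ p = 1) ∨ (q = 1 ∧ p = 2) ∨ (q = 2 ∧ p = 3) ∨
    (q = 3 ∧ p = 0) ∨ (q = 0 ∧ p = 4)))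

instance (p q : Fin 5) : Decidable (bnB p q) := by unfold bnB; infer_instance

theorem bn_iff (p q : Fin 5) : banner.Adj p q ↔ bnB p q := SimpleGraph.fromRel_adj _ _ _

/-- The distance to the vertex `4` in the banner. -/
def ψ : Fin 5 → ℕ := ![1, 2, 3, 2, 0]

theorem ψ_le : ∀ p q : Fin 5, bnB p q → ψ p ≤ ψ q + 1 := by decide

theorem banner_case {F : Vx ζ τ → Fin 5} (h : IsCtr (gr A C D) banner F) {t s : τ}
    (ht : F (.l t) = 4) (hs : F (.y s) = 2) : False := by
  have hE : ∀ u v, (gr A C D).Adj u v → F u = F v ∨ bnB (F u) (F v) := by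
    intro u v huv
    rcases h.edge huv with he | he
    · exact Or.inl he
    · exact Or.inr ((bn_iff _ _).1 he)
  have h1 : ∀ u v, (gr A C D).Adj u v → ψ (F u) ≤ ψ (F v) + 1 := by
    intro u v huv
    rcases hE u v huv with he | he
    · rw [he]; omega
    · exact ψ_le _ _ he
  have hψ2 : ∀ p : Fin 5, ψ p = 3 → p = 2 := by decide
  -- the part 2 consists of vertices `y`
  have hY : ∀ v, F v = 2 → ∃ s', v = .y s' := by
    intro v hv
    have e : ψ (F v) = ψ (F (.l t)) + 3 := by rw [hv, ht]; rfl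
    rcases dist_eq (φ := fun u => ψ (F u)) h1 v (.l t) e with ⟨a, c, _, hc⟩ | ⟨a, c, ha, _⟩
    · cases hc
    · exact ⟨a, ha⟩
  -- `F r = 0`
  have hr : F .r = 0 := by
    have e1 := hE .r (.l t) (adj_of (.rl t))
    have e2 : F .r ≠ 4 := by
      intro e3
      have e : ψ (F (.y s)) = ψ (F .r) + 3 := by rw [hs, e3]; rfl
      rcases dist_eq (φ := fun u => ψ (F u)) h1 (.y s) .r e with ⟨a, c, ha, _⟩ | ⟨a, c, _, hc⟩
      · cases ha
      · cases hc
    rw [ht] at e1
    revert e1 e2
    generalize F .r = p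
    revert p
    decide
  have hd : F .d = 1 ∨ F .d = 3 := by
    have e1 := hE .d (.y s) (adj_of (.dy s))
    have e2 : F .d ≠ 2 := by
      intro e3
      obtain ⟨s', hs'⟩ := hY _ e3
      cases hs'
    rw [hs] at e1
    revert e1 e2
    generalize F .d = p
    revert p
    decide
  have hz : ∀ i, F (.z i) = 0 ∨ F (.z i) = F .d := by
    intro i
    have e1 := hE .r (.z i) (adj_of (.rz i))
    have e2 := hE .d (.z i) (adj_of (.dz i))
    rw [hr] at e1
    revert e1 e2 hd
    generalize F .d = p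
    generalize F (.z i) = q
    revert p q
    decide
  -- the part opposite to `F d`
  obtain ⟨j, hj1, hj2, hj3, hj4⟩ : ∃ j : Fin 5, bnB j 2 ∧ j ≠ F .d ∧ j ≠ 0 ∧ ¬ bnB j (F .d) := by
    rcases hd with e | e
    · exact ⟨3, by decide, by rw [e]; decide, by decide, by rw [e]; decide⟩
    · exact ⟨1, by decide, by rw [e]; decide, by decide, by rw [e]; decide⟩
  have hj0 : j ≠ 2 := hj1.1
  obtain ⟨u, v, hu, hv, huv⟩ := (h.2 j 2 hj0).1 ((bn_iff _ _).2 hj1)
  obtain ⟨s', rfl⟩ := hY v hv
  have hul : u = .l s' := by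
    rcases huv with huv | huv
    · cases huv with
      | dy => exact absurd hu.symm hj2
      | ly => rfl
    · cases huv with
      | ya =>
        rcases hz (A s') with e | e
        · exact absurd (hu.symm.trans e) hj3
        · exact absurd (hu.symm.trans e) hj2
      | yc =>
        rcases hz (D s') with e | e
        · exact absurd (hu.symm.trans e) hj3
        · exact absurd (hu.symm.trans e) hj2
  subst hul
  have e1 := hE (.l s') (.z (A s')) (adj_of (.la s'))
  have e2 := hE (.y s') (.z (A s')) (adj_of (.ya s'))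
  rw [hu] at e1
  rw [hv] at e2
  rcases hz (A s') with e | e
  · rw [e] at e2
    revert e2
    decide
  · rw [e] at e1
    rcases e1 with e1 | e1
    · exact hj2 e1
    · exact hj4 e1

theorem no_banner : ¬ ContractibleTo (gr A C D) banner := by
  rintro ⟨F, hF⟩
  have h : IsCtr (gr A C D) banner F := hF
  have h1 : ∀ u v, (gr A C D).Adj u v → ψ (F u) ≤ ψ (F v) + 1 := by
    intro u v huv
    rcases h.edge huv with he | he
    · rw [he]; omega
    · exact ψ_le _ _ ((bn_iff _ _).1 he)
  obtain ⟨u, hu⟩ := h.surj 2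
  obtain ⟨v, hv⟩ := h.surj 4
  have e : ψ (F u) = ψ (F v) + 3 := by rw [hu, hv]; rfl
  rcases dist_eq (φ := fun u => ψ (F u)) h1 u v e with ⟨a, c, rfl, rfl⟩ | ⟨a, c, rfl, rfl⟩
  · exact banner_case (h.iso (swIso (A := A) (C := C) (D := D))) (t := c) (s := a) hv hu
  · exact banner_case h hv hu

end Pool.Agent.W_9f10ef_h38
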