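import Pool.Agent.W_9f10ef_h38.Graph

/-!
# MP_9f10ef_co, hardness of recognition: contractions to complete bipartite graphs
-/

set_option autoImplicit false

namespace Pool.Agent.W_9f10ef_h38

open W_MP_9f10ef_co

variable {ζ τ : Type} {A C D : τ → ζ}

/-- `f` is a non-constant solution of the system of triples. -/
def Sol (A C D : τ → ζ) (f : ζ → Bool) : Prop :=
  (∃ i j, f i ≠ f j) ∧ ∀ t, f (A t) = f (C t) ∨ f (A t) = f (D t)

/-! ### A solution gives a contraction to `K_{2,3}` -/

section contract

variable (f : ζ → Bool) (z0 : ζ)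

/-- The part of the vertices of the colour of `i`. -/
def cls (f : ζ → Bool) (z0 i : ζ) : Fin 2 ⊕ Fin 3 := if f i = f z0 then .inr 1 else .inr 2

/-- The contraction. -/
def kF (A C D : τ → ζ) (f : ζ → Bool) (z0 : ζ) : Vx ζ τ → Fin 2 ⊕ Fin 3
  | .d => .inl 0
  | .r => .inl 1
  | .b => .inr 0
  | .z i => cls f z0 i
  | .l t => if f (A t) = f (C t) then cls f z0 (A t) else .inl 1
  | .y t => if f (A t) = f (D t) then cls f z0 (A t) else .inl 0

end contract

theorem cls_ne_inl {f : ζ → Bool} {z0 i : ζ} {x : Fin 2} : cls f z0 i ≠ .inl x := by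
  unfold cls
  split_ifs <;> simp

theorem cls_ne_b {f : ζ → Bool} {z0 i : ζ} : cls f z0 i ≠ .inr 0 := by
  unfold cls
  split_ifs <;> simp

theorem cls_congr {f : ζ → Bool} {z0 i j : ζ} (h : f i = f j) : cls f z0 i = cls f z0 j := by
  unfold cls
  rw [h]

/-- A set all whose vertices can be reached from a given one (inside the set) is connected. -/
theorem conn_of_center {V : Type} {G : SimpleGraph V} {S : Set V} (c : V) (hc : c ∈ S)
    (h : ∀ v (hv : v ∈ S), (G.induce S).Reachable ⟨c, hc⟩ ⟨v, hv⟩) : (G.induce S).Connected := by
  have : Nonempty S := ⟨⟨c, hc⟩⟩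
  refine (SimpleGraph.connected_iff _).2 ⟨?_, this⟩
  rintro ⟨u, hu⟩ ⟨v, hv⟩
  exact (h u hu).symm.trans (h v hv)

theorem reach_adj {V : Type} {G : SimpleGraph V} {S : Set V} {u v : V} (hu : u ∈ S) (hv : v ∈ S)
    (h : G.Adj u v) : (G.induce S).Reachable ⟨u, hu⟩ ⟨v, hv⟩ :=
  SimpleGraph.Adj.reachable (G := G.induce S) (u := ⟨u, hu⟩) (v := ⟨v, hv⟩) h

theorem contract_of_sol {f : ζ → Bool} {z0 z1 : ζ} (h01 : f z0 ≠ f z1)
    (hf : ∀ t, f (A t) = f (C t) ∨ f (A t) = f (D t))
    (hz : ∀ i, ∃ t, A t = i ∧ C t = z0 ∧ D t = z1) :
    ContractibleTo (gr A C D) (completeBipartiteGraph (Fin 2) (Fin 3)) := by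
  have hc0 : cls f z0 z0 = .inr 1 := if_pos rfl
  have hc1 : cls f z0 z1 = .inr 2 := if_neg h01.symm
  have hm0 : (.z z0 : Vx ζ τ) ∈ kF A C D f z0 ⁻¹' {.inr 1} := hc0
  have hm1 : (.z z1 : Vx ζ τ) ∈ kF A C D f z0 ⁻¹' {.inr 2} := hc1
  refine ⟨kF A C D f z0, ?_, ?_⟩
  · intro p
    rcases p with p | p
    · have hp : p = 0 ∨ p = 1 := by omega
      rcases hp with rfl | rfl
      · -- the part of `d`
        refine conn_of_center (.d : Vx ζ τ) rfl ?_
        intro v hv
        cases v with
        | d => exact SimpleGraph.Reachable.refl _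
        | r => simp [kF] at hv
        | b => simp [kF] at hv
        | z i => exact absurd hv cls_ne_inl
        | l t =>
          exfalso
          simp only [Set.mem_preimage, kF, Set.mem_singleton_iff] at hv
          split_ifs at hv
          · exact cls_ne_inl hv
          · simp at hv
        | y t => exact reach_adj _ _ (adj_of (.dy t))
      · refine conn_of_center (.r : Vx ζ τ) rfl ?_
        intro v hv
        cases v with
        | d => simp [kF] at hv
        | r => exact SimpleGraph.Reachable.refl _
        | b => simp [kF] at hv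
        | z i => exact absurd hv cls_ne_inl
        | l t => exact reach_adj _ _ (adj_of (.rl t))
        | y t =>
          exfalso
          simp only [Set.mem_preimage, kF, Set.mem_singleton_iff] at hv
          split_ifs at hv
          · exact cls_ne_inl hv
          · simp at hv
    · have hp : p = 0 ∨ p = 1 ∨ p = 2 := by omega
      rcases hp with rfl | rfl | rfl
      · refine conn_of_center (.b : Vx ζ τ) rfl ?_
        intro v hv
        cases v with
        | d => simp [kF] at hv
        | r => simp [kF] at hv
        | b => exact SimpleGraph.Reachable.refl _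
        | z i => exact absurd hv cls_ne_b
        | l t =>
          exfalso
          simp only [Set.mem_preimage, kF, Set.mem_singleton_iff] at hv
          split_ifs at hv
          exact cls_ne_b hv
        | y t =>
          exfalso
          simp only [Set.mem_preimage, kF, Set.mem_singleton_iff] at hv
          split_ifs at hv
          exact cls_ne_b hv
      · -- colour of `z0`
        have key : ∀ i (hi : (.z i : Vx ζ τ) ∈ kF A C D f z0 ⁻¹' {.inr 1}),
            ((gr A C D).induce (kF A C D f z0 ⁻¹' {.inr 1})).Reachable ⟨.z z0, hm0⟩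
              ⟨.z i, hi⟩ := by
          intro i hi
          obtain ⟨t, ht1, ht2, ht3⟩ := hz i
          have hi' : f i = f z0 := by
            by_contra hne
            have h1 : cls f z0 i = .inr 1 := hi
            unfold cls at h1
            rw [if_neg hne] at h1
            simp at h1
          have hl : (.l t : Vx ζ τ) ∈ kF A C D f z0 ⁻¹' {.inr 1} := by
            show kF A C D f z0 (.l t) = .inr 1
            simp only [kF]
            rw [ht1, ht2, if_pos hi']
            exact hi
          have e1 : (gr A C D).Adj (.l t) (.z z0) := by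
            rw [← ht2]; exact adj_of (.lc t)
          have e2 : (gr A C D).Adj (.l t) (.z i) := by
            rw [← ht1]; exact adj_of (.la t)
          exact (reach_adj _ hl e1.symm).trans (reach_adj hl _ e2)
        refine conn_of_center (.z z0 : Vx ζ τ) hm0 ?_
        intro v hv
        cases v with
        | d => simp [kF] at hv
        | r => simp [kF] at hv
        | b => simp [kF] at hv
        | z i => exact key i hv
        | l t =>
          have hv' : kF A C D f z0 (.l t) = .inr 1 := hv
          simp only [kF] at hv'
          split_ifs at hv' with h1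
          exact (key (A t) hv').trans (reach_adj _ _ (adj_of (.la t)).symm)
        | y t =>
          have hv' : kF A C D f z0 (.y t) = .inr 1 := hv
          simp only [kF] at hv'
          split_ifs at hv' with h1
          exact (key (A t) hv').trans (reach_adj _ _ (adj_of (.ya t)).symm)
      · -- colour of `z1`
        have key : ∀ i (hi : (.z i : Vx ζ τ) ∈ kF A C D f z0 ⁻¹' {.inr 2}),
            ((gr A C D).induce (kF A C D f z0 ⁻¹' {.inr 2})).Reachable ⟨.z z1, hm1⟩
              ⟨.z i, hi⟩ := by
          intro i hi
          obtain ⟨t, ht1, ht2, ht3⟩ := hz i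
          have hi' : f i = f z1 := by
            have h1 : cls f z0 i = .inr 2 := hi
            unfold cls at h1
            by_cases h2 : f i = f z0
            · rw [if_pos h2] at h1
              simp at h1
            · revert h2 h01
              cases f i <;> cases f z0 <;> cases f z1 <;> simp
          have hl : (.y t : Vx ζ τ) ∈ kF A C D f z0 ⁻¹' {.inr 2} := by
            show kF A C D f z0 (.y t) = .inr 2
            simp only [kF]
            rw [ht1, ht3, if_pos hi']
            exact hi
          have e1 : (gr A C D).Adj (.y t) (.z z1) := by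
            rw [← ht3]; exact adj_of (.yc t)
          have e2 : (gr A C D).Adj (.y t) (.z i) := by
            rw [← ht1]; exact adj_of (.ya t)
          exact (reach_adj _ hl e1.symm).trans (reach_adj hl _ e2)
        refine conn_of_center (.z z1 : Vx ζ τ) hm1 ?_
        intro v hv
        cases v with
        | d => simp [kF] at hv
        | r => simp [kF] at hv
        | b => simp [kF] at hv
        | z i => exact key i hv
        | l t =>
          have hv' : kF A C D f z0 (.l t) = .inr 2 := hv
          simp only [kF] at hv'
          split_ifs at hv' with h1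
          exact (key (A t) hv').trans (reach_adj _ _ (adj_of (.la t)).symm)
        | y t =>
          have hv' : kF A C D f z0 (.y t) = .inr 2 := hv
          simp only [kF] at hv'
          split_ifs at hv' with h1
          exact (key (A t) hv').trans (reach_adj _ _ (adj_of (.ya t)).symm)
  · -- adjacency of the parts
    have hcls : ∀ i, ∃ q : Fin 3, cls f z0 i = .inr q := by
      intro i
      unfold cls
      split_ifs
      · exact ⟨1, rfl⟩
      · exact ⟨2, rfl⟩
    have hEd : ∀ u v, Ed A C D u v → kF A C D f z0 u ≠ kF A C D f z0 v →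
        (completeBipartiteGraph (Fin 2) (Fin 3)).Adj (kF A C D f z0 u) (kF A C D f z0 v) := by
      intro u v huv hne
      cases huv with
      | db => simp [kF]
      | rb => simp [kF]
      | dz i =>
        obtain ⟨q, hq⟩ := hcls i
        simp [kF, hq]
      | rz i =>
        obtain ⟨q, hq⟩ := hcls i
        simp [kF, hq]
      | dy t =>
        obtain ⟨q, hq⟩ := hcls (A t)
        by_cases h1 : f (A t) = f (D t)
        · simp only [kF]
          rw [if_pos h1, hq]
          simp
        · exfalso
          apply hne
          simp only [kF]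
          rw [if_neg h1]
      | rl t =>
        obtain ⟨q, hq⟩ := hcls (A t)
        by_cases h1 : f (A t) = f (C t)
        · simp only [kF]
          rw [if_pos h1, hq]
          simp
        · exfalso
          apply hne
          simp only [kF]
          rw [if_neg h1]
      | la t =>
        obtain ⟨q, hq⟩ := hcls (A t)
        by_cases h1 : f (A t) = f (C t)
        · exfalso
          apply hne
          simp only [kF]
          rw [if_pos h1]
        · simp only [kF]
          rw [if_neg h1, hq]
          simp
      | lc t =>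
        obtain ⟨q, hq⟩ := hcls (C t)
        by_cases h1 : f (A t) = f (C t)
        · exfalso
          apply hne
          simp only [kF]
          rw [if_pos h1, cls_congr h1]
        · simp only [kF]
          rw [if_neg h1, hq]
          simp
      | ya t =>
        obtain ⟨q, hq⟩ := hcls (A t)
        by_cases h1 : f (A t) = f (D t)
        · exfalso
          apply hne
          simp only [kF]
          rw [if_pos h1]
        · simp only [kF]
          rw [if_neg h1, hq]
          simp
      | yc t =>
        obtain ⟨q, hq⟩ := hcls (D t)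
        by_cases h1 : f (A t) = f (D t)
        · exfalso
          apply hne
          simp only [kF]
          rw [if_pos h1, cls_congr h1]
        · simp only [kF]
          rw [if_neg h1, hq]
          simp
      | ly t =>
        obtain ⟨q, hq⟩ := hcls (A t)
        by_cases h1 : f (A t) = f (C t)
        · by_cases h2 : f (A t) = f (D t)
          · exfalso
            apply hne
            simp only [kF]
            rw [if_pos h1, if_pos h2]
          · simp only [kF]
            rw [if_pos h1, if_neg h2, hq]
            simp
        · have h2 : f (A t) = f (D t) := (hf t).resolve_left h1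
          simp only [kF]
          rw [if_neg h1, if_pos h2, hq]
          simp
    have hfwd : ∀ (x : Fin 2) (q : Fin 3), ∃ u v, kF A C D f z0 u = .inl x ∧
        kF A C D f z0 v = .inr q ∧ (gr A C D).Adj u v := by
      intro x q
      have hx : x = 0 ∨ x = 1 := by omega
      have hq : q = 0 ∨ q = 1 ∨ q = 2 := by omega
      rcases hx with rfl | rfl <;> rcases hq with rfl | rfl | rfl
      · exact ⟨.d, .b, rfl, rfl, adj_of .db⟩
      · exact ⟨.d, .z z0, rfl, hc0, adj_of (.dz _)⟩
      · exact ⟨.d, .z z1, rfl, hc1, adj_of (.dz _)⟩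
      · exact ⟨.r, .b, rfl, rfl, adj_of .rb⟩
      · exact ⟨.r, .z z0, rfl, hc0, adj_of (.rz _)⟩
      · exact ⟨.r, .z z1, rfl, hc1, adj_of (.rz _)⟩
    intro p q hpq
    constructor
    · intro h
      rcases p with p | p <;> rcases q with q | q
      · simp at h
      · exact hfwd p q
      · obtain ⟨u, v, h1, h2, h3⟩ := hfwd q p
        exact ⟨v, u, h2, h1, h3.symm⟩
      · simp at h
    · rintro ⟨u, v, rfl, rfl, h⟩
      rcases h with h | h
      · exact hEd u v h hpq
      · exact (hEd v u h hpq.symm).symm

/-! ### A contraction to `K_{m,n}`, `2 ≤ m < n`, gives a solution -/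

section kmn

variable {m n : ℕ} {F : Vx ζ τ → Fin m ⊕ Fin n}

theorem kmn_edge (h : IsCtr (gr A C D) (completeBipartiteGraph (Fin m) (Fin n)) F)
    {u v : Vx ζ τ} (huv : (gr A C D).Adj u v) : F u = F v ∨ (F u).isLeft ≠ (F v).isLeft := by
  rcases h.edge huv with he | he
  · exact Or.inl he
  · right
    revert he
    generalize F u = p
    generalize F v = q
    intro he
    rcases p with a | a <;> rcases q with b | b <;> simp at he ⊢

theorem kmn_touch (h : IsCtr (gr A C D) (completeBipartiteGraph (Fin m) (Fin n)) F)
    {p q : Fin m ⊕ Fin n} (hpq : p.isLeft ≠ q.isLeft) :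
    ∃ u v, F u = p ∧ F v = q ∧ (gr A C D).Adj u v := by
  have hne : p ≠ q := fun e => hpq (by rw [e])
  refine (h.2 p q hne).1 ?_
  rcases p with a | a <;> rcases q with b | b <;> simp at hpq ⊢

/-- A side with at least two parts has a part different from a given one. -/
theorem exists_other (h2 : 2 ≤ m) (hmn : m < n) (p : Fin m ⊕ Fin n) :
    ∃ q : Fin m ⊕ Fin n, q.isLeft = p.isLeft ∧ q ≠ p := by
  rcases p with a | a
  · by_cases ha : a = ⟨0, by omega⟩
    · exact ⟨.inl ⟨1, by omega⟩, rfl, by rw [ha]; simp⟩
    · exact ⟨.inl ⟨0, by omega⟩, rfl, fun e => ha (Sum.inl_injective e).symm⟩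
  · by_cases ha : a = ⟨0, by omega⟩
    · exact ⟨.inr ⟨1, by omega⟩, rfl, by rw [ha]; simp⟩
    · exact ⟨.inr ⟨0, by omega⟩, rfl, fun e => ha (Sum.inr_injective e).symm⟩

/-- The case that `b` and `d`, but not `r`, are in the same part. -/
theorem kmn_case2 (h2 : 2 ≤ m) (hmn : m < n)
    (h : IsCtr (gr A C D) (completeBipartiteGraph (Fin m) (Fin n)) F)
    (hd : F .d = F .b) (hr : F .r ≠ F .b) : False := by
  have hs : (F .r).isLeft ≠ (F .b).isLeft := (kmn_edge h (adj_of .rb)).resolve_left hr
  have hs' : (F .r).isLeft ≠ (F .d).isLeft := by rw [hd]; exact hs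
  -- the other parts on the side of `d` consist of vertices `l t`
  have hL : ∀ p : Fin m ⊕ Fin n, p.isLeft = (F .d).isLeft → p ≠ F .d → ∀ u, F u = p →
      ∃ t, u = .l t := by
    intro p hp hne u hu
    have hside : (F u).isLeft = (F .d).isLeft := by rw [hu]; exact hp
    have hnot : ¬ (gr A C D).Adj .d u := by
      intro hadj
      rcases kmn_edge h hadj with e | e
      · exact hne (hu.symm.trans e.symm)
      · exact e hside.symm
    cases u with
    | d => exact absurd hu.symm hne
    | r => exact absurd hside hs'
    | b => exact absurd (adj_of .db) hnot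
    | z i => exact absurd (adj_of (.dz i)) hnot
    | l t => exact ⟨t, rfl⟩
    | y t => exact absurd (adj_of (.dy t)) hnot
  have hY : ∀ p : Fin m ⊕ Fin n, p.isLeft = (F .r).isLeft → p ≠ F .r → ∀ u, F u = p →
      ∃ t, u = .y t := by
    intro p hp hne u hu
    have hside : (F u).isLeft = (F .r).isLeft := by rw [hu]; exact hp
    have hnot : ¬ (gr A C D).Adj .r u := by
      intro hadj
      rcases kmn_edge h hadj with e | e
      · exact hne (hu.symm.trans e.symm)
      · exact e hside.symm
    cases u with
    | d => exact absurd hside.symm hs'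
    | r => exact absurd hu.symm hne
    | b => exact absurd (adj_of .rb) hnot
    | z i => exact absurd (adj_of (.rz i)) hnot
    | l t => exact absurd (adj_of (.rl t)) hnot
    | y t => exact ⟨t, rfl⟩
  -- the edge between two such parts
  have hE : ∀ p q : Fin m ⊕ Fin n, p.isLeft = (F .d).isLeft → p ≠ F .d →
      q.isLeft = (F .r).isLeft → q ≠ F .r → ∃ t, F (.l t) = p ∧ F (.y t) = q := by
    intro p q hp hp' hq hq'
    obtain ⟨u, v, hu, hv, huv⟩ := kmn_touch h (p := p) (q := q) (by
      rw [hp, hq]; exact hs'.symm)
    obtain ⟨t, rfl⟩ := hL p hp hp' u hu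
    obtain ⟨s, rfl⟩ := hY q hq hq' v hv
    rcases huv with huv | huv
    · cases huv with
      | ly => exact ⟨t, hu, hv⟩
    · cases huv
  -- parts of one side are determined by the other side
  have huL : ∀ p p' q : Fin m ⊕ Fin n, p.isLeft = (F .d).isLeft → p ≠ F .d →
      p'.isLeft = (F .d).isLeft → p' ≠ F .d → q.isLeft = (F .r).isLeft → q ≠ F .r → p = p' := by
    intro p p' q hp hp' hpp hpp' hq hq'
    obtain ⟨t, ht1, ht2⟩ := hE p q hp hp' hq hq'
    obtain ⟨s, hs1, hs2⟩ := hE p' q hpp hpp' hq hq'
    by_contra hne
    have hts : (.y t : Vx ζ τ) ≠ .y s := by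
      intro e
      cases e
      exact hne (ht1.symm.trans hs1)
    obtain ⟨w, hw1, hw2⟩ := h.nbr (ht2.trans hs2.symm) hts
    rw [ht2] at hw2
    obtain ⟨t', rfl⟩ := hY q hq hq' w hw2
    rcases hw1 with hw1 | hw1 <;> cases hw1
  have huR : ∀ p q q' : Fin m ⊕ Fin n, p.isLeft = (F .d).isLeft → p ≠ F .d →
      q.isLeft = (F .r).isLeft → q ≠ F .r → q'.isLeft = (F .r).isLeft → q' ≠ F .r → q = q' := by
    intro p q q' hp hp' hq hq' hqq hqq'
    obtain ⟨t, ht1, ht2⟩ := hE p q hp hp' hq hq'
    obtain ⟨s, hs1, hs2⟩ := hE p q' hp hp' hqq hqq'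
    by_contra hne
    have hts : (.l t : Vx ζ τ) ≠ .l s := by
      intro e
      cases e
      exact hne (ht2.symm.trans hs2)
    obtain ⟨w, hw1, hw2⟩ := h.nbr (ht1.trans hs1.symm) hts
    rw [ht1] at hw2
    obtain ⟨t', rfl⟩ := hL p hp hp' w hw2
    rcases hw1 with hw1 | hw1 <;> cases hw1
  obtain ⟨p, hp, hp'⟩ := exists_other h2 hmn (F .d)
  obtain ⟨q, hq, hq'⟩ := exists_other h2 hmn (F .r)
  -- the right side has at least three parts
  have h3 : ∀ a : Fin m ⊕ Fin n, a.isLeft = false → ∃ x y : Fin m ⊕ Fin n,
      x.isLeft = false ∧ y.isLeft = false ∧ x ≠ a ∧ y ≠ a ∧ x ≠ y := by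
    intro a ha
    rcases a with a | a
    · simp at ha
    · obtain ⟨x, y, hx, hy, hxy⟩ : ∃ x y : Fin n, x ≠ a ∧ y ≠ a ∧ x ≠ y := by
        have hcard : 2 ≤ (Finset.univ.erase a : Finset (Fin n)).card := by
          rw [Finset.card_erase_of_mem (Finset.mem_univ a), Finset.card_univ, Fintype.card_fin]
          omega
        obtain ⟨x, hx, y, hy, hxy⟩ := Finset.one_lt_card.1 (by omega :
          1 < (Finset.univ.erase a : Finset (Fin n)).card)
        exact ⟨x, y, (Finset.mem_erase.1 hx).1, (Finset.mem_erase.1 hy).1, hxy⟩
      exact ⟨.inr x, .inr y, rfl, rfl, fun e => hx (Sum.inr_injective e),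
        fun e => hy (Sum.inr_injective e), fun e => hxy (Sum.inr_injective e)⟩
  by_cases hside : (F .d).isLeft = false
  · obtain ⟨x, y, hx, hy, hxa, hya, hxy⟩ := h3 _ hside
    exact hxy (huL x y q (by rw [hx, hside]) hxa (by rw [hy, hside]) hya hq hq')
  · have hside' : (F .r).isLeft = false := by
      revert hside hs'
      cases (F .d).isLeft <;> cases (F .r).isLeft <;> simp
    obtain ⟨x, y, hx, hy, hxa, hya, hxy⟩ := h3 _ hside'
    exact hxy (huR p x y hp hp' (by rw [hx, hside']) hxa (by rw [hy, hside']) hya)

theorem sol_of_kmn (h2 : 2 ≤ m) (hmn : m < n)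
    (h : IsCtr (gr A C D) (completeBipartiteGraph (Fin m) (Fin n)) F) : ∃ f, Sol A C D f := by
  have hside : ∀ u v, (gr A C D).Adj u v → F u ≠ F v → (F u).isLeft ≠ (F v).isLeft :=
    fun u v huv hne => (kmn_edge h huv).resolve_left hne
  by_cases hb : ∀ u, F u = F .b → u = .b
  · -- `b` is alone in its part
    have hdb : F .d ≠ F .b := fun e => by cases hb _ e
    have hrb : F .r ≠ F .b := fun e => by cases hb _ e
    have hopp : ∀ q : Fin m ⊕ Fin n, q.isLeft ≠ (F .b).isLeft → q = F .d ∨ q = F .r := by
      intro q hq
      obtain ⟨u, v, hu, hv, huv⟩ := kmn_touch h (p := F .b) (q := q) hq.symm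
      have := hb u hu
      subst this
      rcases huv with huv | huv
      · cases huv
      · cases huv with
        | db => exact Or.inl hv.symm
        | rb => exact Or.inr hv.symm
    have hds := hside _ _ (adj_of .db) hdb
    have hrs := hside _ _ (adj_of .rb) hrb
    have hdr : F .d ≠ F .r := by
      intro e
      obtain ⟨q, hq, hq'⟩ := exists_other h2 hmn (F .d)
      rcases hopp q (by rw [hq]; exact hds) with e1 | e1
      · exact hq' e1
      · exact hq' (e1.trans e.symm)
    -- `b` is on the right side
    have hbR : (F .b).isLeft = false := by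
      by_contra hne
      have hbL : (F .b).isLeft = true := by
        revert hne; cases (F .b).isLeft <;> simp
      have hn3 : 3 ≤ n := by omega
      have hx : ∀ x : Fin n, (Sum.inr x : Fin m ⊕ Fin n) = F .d ∨
          (Sum.inr x : Fin m ⊕ Fin n) = F .r := fun x => hopp _ (by rw [hbL]; simp)
      have h0 := hx ⟨0, by omega⟩
      have h1 := hx ⟨1, by omega⟩
      have h2' := hx ⟨2, by omega⟩
      rcases h0 with h0 | h0 <;> rcases h1 with h1 | h1 <;> rcases h2' with h2' | h2' <;>
        first
        | (have e := h0.trans h1.symm; simp at e)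
        | (have e := h0.trans h2'.symm; simp at e)
        | (have e := h1.trans h2'.symm; simp at e)
    have hdL : (F .d).isLeft = true := by
      revert hds; rw [hbR]; cases (F .d).isLeft <;> simp
    have hrL : (F .r).isLeft = true := by
      revert hrs; rw [hbR]; cases (F .r).isLeft <;> simp
    have hzR : ∀ i, (F (.z i)).isLeft = false := by
      intro i
      by_contra hne
      have hzL : (F (.z i)).isLeft = true := by
        revert hne; cases (F (.z i)).isLeft <;> simp
      have e1 : F .d = F (.z i) := by
        by_contra e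
        exact hside _ _ (adj_of (.dz i)) e (by rw [hdL, hzL])
      have e2 : F .r = F (.z i) := by
        by_contra e
        exact hside _ _ (adj_of (.rz i)) e (by rw [hrL, hzL])
      exact hdr (e1.trans e2.symm)
    -- every right part other than that of `b` contains a vertex `z i`
    have hex : ∀ q : Fin m ⊕ Fin n, q.isLeft = false → q ≠ F .b → ∃ i, F (.z i) = q := by
      intro q hq hqb
      obtain ⟨u, hu⟩ := h.surj q
      cases u with
      | d => rw [hu, hq] at hdL; simp at hdL
      | r => rw [hu, hq] at hrL; simp at hrL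
      | b => exact absurd hu.symm hqb
      | z i => exact ⟨i, hu⟩
      | l t =>
        refine ⟨A t, ?_⟩
        by_contra hne
        exact hside (.l t) (.z (A t)) (adj_of (.la t)) (fun e => hne (e.symm.trans hu)) (by
          rw [hu, hq, hzR])
      | y t =>
        refine ⟨A t, ?_⟩
        by_contra hne
        exact hside (.y t) (.z (A t)) (adj_of (.ya t)) (fun e => hne (e.symm.trans hu)) (by
          rw [hu, hq, hzR])
    obtain ⟨x, y, hxR, hyR, hxb, hyb, hxy⟩ : ∃ x y : Fin m ⊕ Fin n,
        x.isLeft = false ∧ y.isLeft = false ∧ x ≠ F .b ∧ y ≠ F .b ∧ x ≠ y := by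
      rcases hFb : F .b with a | a
      · rw [hFb] at hbR; simp at hbR
      · obtain ⟨x, y, hx, hy, hxy⟩ : ∃ x y : Fin n, x ≠ a ∧ y ≠ a ∧ x ≠ y := by
          have hcard : 1 < (Finset.univ.erase a : Finset (Fin n)).card := by
            rw [Finset.card_erase_of_mem (Finset.mem_univ a), Finset.card_univ,
              Fintype.card_fin]
            omega
          obtain ⟨x, hx, y, hy, hxy⟩ := Finset.one_lt_card.1 hcard
          exact ⟨x, y, (Finset.mem_erase.1 hx).1, (Finset.mem_erase.1 hy).1, hxy⟩
        exact ⟨.inr x, .inr y, rfl, rfl, fun e => hx (Sum.inr_injective e),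
          fun e => hy (Sum.inr_injective e), fun e => hxy (Sum.inr_injective e)⟩
    obtain ⟨i, hi⟩ := hex x hxR hxb
    obtain ⟨j, hj⟩ := hex y hyR hyb
    classical
    refine ⟨fun k => decide (F (.z k) = x), ⟨i, j, ?_⟩, ?_⟩
    · have e1 : decide (F (.z i) = x) = true := decide_eq_true hi
      have e2 : decide (F (.z j) = x) = false := decide_eq_false (fun e => hxy (e.symm.trans hj))
      simp only [e1, e2]
      simp
    · intro t
      by_contra hcon
      push Not at hcon
      obtain ⟨c1, c2⟩ := hcon
      have hAC : F (.z (A t)) ≠ F (.z (C t)) := fun e => c1 (by simp only [e])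
      have hAD : F (.z (A t)) ≠ F (.z (D t)) := fun e => c2 (by simp only [e])
      have hl : (F (.l t)).isLeft = true := by
        by_contra hne
        have hlR : (F (.l t)).isLeft = false := by
          revert hne; cases (F (.l t)).isLeft <;> simp
        have e1 : F (.l t) = F (.z (A t)) := by
          by_contra e
          exact hside _ _ (adj_of (.la t)) e (by rw [hlR, hzR])
        have e2 : F (.l t) = F (.z (C t)) := by
          by_contra e
          exact hside _ _ (adj_of (.lc t)) e (by rw [hlR, hzR])
        exact hAC (e1.symm.trans e2)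
      have hy : (F (.y t)).isLeft = true := by
        by_contra hne
        have hyR : (F (.y t)).isLeft = false := by
          revert hne; cases (F (.y t)).isLeft <;> simp
        have e1 : F (.y t) = F (.z (A t)) := by
          by_contra e
          exact hside _ _ (adj_of (.ya t)) e (by rw [hyR, hzR])
        have e2 : F (.y t) = F (.z (D t)) := by
          by_contra e
          exact hside _ _ (adj_of (.yc t)) e (by rw [hyR, hzR])
        exact hAD (e1.symm.trans e2)
      have e1 : F .r = F (.l t) := by
        by_contra e
        exact hside _ _ (adj_of (.rl t)) e (by rw [hrL, hl])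
      have e2 : F .d = F (.y t) := by
        by_contra e
        exact hside _ _ (adj_of (.dy t)) e (by rw [hdL, hy])
      have e3 : F (.l t) = F (.y t) := by
        by_contra e
        exact hside _ _ (adj_of (.ly t)) e (by rw [hl, hy])
      exact hdr (e2.trans (e3.symm.trans e1.symm))
  · exfalso
    push Not at hb
    obtain ⟨u, hu, hub⟩ := hb
    obtain ⟨w, hw1, hw2⟩ := h.nbr hu.symm hub.symm
    have hw : w = .d ∨ w = .r := by
      rcases hw1 with hw1 | hw1
      · cases hw1
      · cases hw1 with
        | db => exact Or.inl rfl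
        | rb => exact Or.inr rfl
    by_cases hd : F .d = F .b
    · by_cases hr : F .r = F .b
      · -- both: the part of `b` is adjacent to everything
        obtain ⟨q, hq, hq'⟩ := exists_other h2 hmn (F .b)
        obtain ⟨v, hv⟩ := h.surj q
        have hnd : ¬ (gr A C D).Adj .d v := by
          intro hadj
          exact hside _ _ hadj (by rw [hd, hv]; exact hq'.symm) (by rw [hd, hv, hq])
        have hnr : ¬ (gr A C D).Adj .r v := by
          intro hadj
          exact hside _ _ hadj (by rw [hr, hv]; exact hq'.symm) (by rw [hr, hv, hq])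
        cases v with
        | d => exact hq' (hv.symm.trans hd)
        | r => exact hq' (hv.symm.trans hr)
        | b => exact hq' hv.symm
        | z i => exact hnd (adj_of (.dz i))
        | l t => exact hnr (adj_of (.rl t))
        | y t => exact hnd (adj_of (.dy t))
      · exact kmn_case2 h2 hmn h hd hr
    · have hr : F .r = F .b := by
        rcases hw with rfl | rfl
        · exact absurd hw2 hd
        · exact hw2
      exact kmn_case2 h2 hmn (h.iso (swIso (A := A) (C := C) (D := D))) hr hd

end kmn

/-! ### The class `𝒢^cs` -/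

theorem inGcs_of_no_sol [Fintype (Vx ζ τ)] (h : ¬ ∃ f, Sol A C D f) : InGcs (gr A C D) := by
  refine inGcs_of_not_contractible gr_connected no_P5 no_banner ?_
  rintro m n h2 hmn ⟨F, hF⟩
  exact h (sol_of_kmn h2 hmn (show IsCtr _ _ F from hF))

theorem not_inGcs_of_sol [Fintype (Vx ζ τ)] {z0 z1 : ζ}
    (hz : ∀ i, ∃ t, A t = i ∧ C t = z0 ∧ D t = z1) {f : ζ → Bool} (h : Sol A C D f) :
    ¬ InGcs (gr A C D) := by
  have h01 : f z0 ≠ f z1 := by
    intro e
    obtain ⟨⟨i, j, hij⟩, hf⟩ := h
    have key : ∀ k, f k = f z0 := by
      intro k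
      obtain ⟨t, h1, h2, h3⟩ := hz k
      have := hf t
      rw [h1, h2, h3, ← e, or_self] at this
      exact this
    exact hij ((key i).trans (key j).symm)
  exact not_inGcs_of_contractible gr_connected
    (Or.inr (Or.inr ⟨3, le_rfl, contract_of_sol h01 h.2 hz⟩))

end Pool.Agent.W_9f10ef_h38
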