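import Pool.Agent.PolyTimeCL.NP
import Pool.Agent.PolyTimeCL.CookLevin
import Pool.Agent.W_9f10ef_h38.Kmn

/-!
# MP_9f10ef_co, hardness of recognition: satisfiability as a system of triples
-/

set_option autoImplicit false

namespace Pool.Agent.W_9f10ef_h38

open Pool.Agent.PolyTime

/-- Names of the elements. -/
abbrev Nm := ℕ × ℕ × ℕ

/-- The constants. -/
def c0 : Nm := (0, 0, 0)
def c1 : Nm := (0, 0, 1)

/-- The literals. -/
def lt (x : ℕ) (s : Bool) : Nm := (1, x, bif s then 1 else 0)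

/-- The partial disjunctions of the clauses. -/
def sv (j k : ℕ) : Nm := (2, j, k)

/-- The clause number `j`. -/
def cl (φ : CNF ℕ) (j : ℕ) : List (ℕ × Bool) := (φ[j]?).getD []

def len (φ : CNF ℕ) (j : ℕ) : ℕ := (cl φ j).length

def lit (φ : CNF ℕ) (j k : ℕ) : ℕ × Bool := ((cl φ j)[k]?).getD (0, false)

/-- The triples of the variables. -/
def trV (φ : CNF ℕ) : List (Nm × Nm × Nm) :=
  (φ.flatten.map Prod.fst).flatMap fun x =>
    [(c1, lt x true, lt x false), (c0, lt x true, lt x false)]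

/-- The triples of the clauses. -/
def trC (φ : CNF ℕ) : List (Nm × Nm × Nm) :=
  (List.range φ.length).flatMap fun j =>
    (c0, sv j 0, sv j 0) :: (c1, sv j (len φ j), sv j (len φ j)) ::
      (List.range (len φ j)).map fun k => (sv j (k + 1), sv j k, lt (lit φ j k).1 (lit φ j k).2)

/-- All triples. -/
def trs (φ : CNF ℕ) : List (Nm × Nm × Nm) := trV φ ++ trC φ

/-- `g` solves the triples. -/
def NSol (T : List (Nm × Nm × Nm)) (g : Nm → Bool) : Prop :=
  g c0 ≠ g c1 ∧ ∀ t ∈ T, g t.1 = g t.2.1 ∨ g t.1 = g t.2.2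

theorem mem_trV {φ : CNF ℕ} {c : List (ℕ × Bool)} (hc : c ∈ φ) {l : ℕ × Bool} (hl : l ∈ c) :
    (c1, lt l.1 true, lt l.1 false) ∈ trV φ ∧ (c0, lt l.1 true, lt l.1 false) ∈ trV φ := by
  have h : l.1 ∈ φ.flatten.map Prod.fst :=
    List.mem_map.2 ⟨l, List.mem_flatten.2 ⟨c, hc, hl⟩, rfl⟩
  exact ⟨List.mem_flatMap.2 ⟨_, h, by simp⟩, List.mem_flatMap.2 ⟨_, h, by simp⟩⟩

theorem cl_mem {φ : CNF ℕ} {j : ℕ} (hj : j < φ.length) : cl φ j ∈ φ := by
  unfold cl
  rw [List.getElem?_eq_getElem hj, Option.getD_some]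
  exact List.getElem_mem hj

theorem lit_mem {φ : CNF ℕ} {j k : ℕ} (hk : k < len φ j) : lit φ j k ∈ cl φ j := by
  unfold lit
  rw [List.getElem?_eq_getElem hk, Option.getD_some]
  exact List.getElem_mem hk

theorem exists_cl {φ : CNF ℕ} {c : List (ℕ × Bool)} (hc : c ∈ φ) :
    ∃ j < φ.length, cl φ j = c := by
  obtain ⟨j, hj, rfl⟩ := List.getElem_of_mem hc
  refine ⟨j, hj, ?_⟩
  unfold cl
  rw [List.getElem?_eq_getElem hj, Option.getD_some]

theorem exists_lit {φ : CNF ℕ} {j : ℕ} {l : ℕ × Bool} (hl : l ∈ cl φ j) :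
    ∃ k < len φ j, lit φ j k = l := by
  obtain ⟨k, hk, rfl⟩ := List.getElem_of_mem hl
  refine ⟨k, hk, ?_⟩
  unfold lit
  rw [List.getElem?_eq_getElem hk, Option.getD_some]

theorem sat_of_nsol {φ : CNF ℕ} {g : Nm → Bool} (h : NSol (trs φ) g) : φ.Sat := by
  -- normalise the constants
  obtain ⟨h, h0, h1, ht⟩ : ∃ h : Nm → Bool, h c0 = false ∧ h c1 = true ∧
      ∀ t ∈ trs φ, h t.1 = h t.2.1 ∨ h t.1 = h t.2.2 := by
    obtain ⟨hne, hT⟩ := h
    refine ⟨fun z => g z == g c1, ?_, ?_, ?_⟩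
    · exact beq_eq_false_iff_ne.2 hne
    · exact beq_self_eq_true _
    · intro t ht
      rcases hT t ht with e | e
      · exact Or.inl (by simp only [e])
      · exact Or.inr (by simp only [e])
  refine ⟨fun x => h (lt x true), fun c hc => ?_⟩
  obtain ⟨j, hj, rfl⟩ := exists_cl hc
  have hmem : ∀ t, t ∈ (c0, sv j 0, sv j 0) :: (c1, sv j (len φ j), sv j (len φ j)) ::
      (List.range (len φ j)).map (fun k =>
        (sv j (k + 1), sv j k, lt (lit φ j k).1 (lit φ j k).2)) → t ∈ trs φ := by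
    intro t ht'
    exact List.mem_append_right _ (List.mem_flatMap.2 ⟨j, List.mem_range.2 hj, ht'⟩)
  have e0 : h (sv j 0) = false := by
    have := ht _ (hmem _ List.mem_cons_self)
    simp only [or_self] at this
    rw [← this, h0]
  have e1 : h (sv j (len φ j)) = true := by
    have := ht _ (hmem _ (List.mem_cons_of_mem _ List.mem_cons_self))
    simp only [or_self] at this
    rw [← this, h1]
  have e2 : ∀ k < len φ j, h (sv j (k + 1)) = h (sv j k) ∨
      h (sv j (k + 1)) = h (lt (lit φ j k).1 (lit φ j k).2) := by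
    intro k hk
    exact ht _ (hmem _ (List.mem_cons_of_mem _ (List.mem_cons_of_mem _
      (List.mem_map.2 ⟨k, List.mem_range.2 hk, rfl⟩))))
  obtain ⟨k, hk, hlit⟩ : ∃ k < len φ j, h (lt (lit φ j k).1 (lit φ j k).2) = true := by
    by_contra hcon
    push Not at hcon
    have key : ∀ k ≤ len φ j, h (sv j k) = false := by
      intro k
      induction k with
      | zero => exact fun _ => e0
      | succ k ih =>
        intro hk
        rcases e2 k (by omega) with e | e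
        · rw [e]; exact ih (by omega)
        · rw [e]
          exact Bool.eq_false_iff.2 (hcon k (by omega))
    rw [key _ le_rfl] at e1
    exact absurd e1 (by simp)
  refine ⟨lit φ j k, lit_mem hk, ?_⟩
  have hlm := mem_trV hc (lit_mem hk)
  cases hs : (lit φ j k).2 with
  | true => rw [hs] at hlit; exact hlit
  | false =>
    rw [hs] at hlit
    have := ht _ (List.mem_append_left _ hlm.2)
    simp only [h0, hlit] at this
    rcases this with e | e
    · exact e.symm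
    · exact absurd e (by simp)

theorem nsol_of_sat {φ : CNF ℕ} (h : φ.Sat) : ∃ g, NSol (trs φ) g := by
  classical
  obtain ⟨a, ha⟩ := h
  let g : Nm → Bool := fun p =>
    if p.1 = 0 then decide (p.2.2 = 1)
    else if p.1 = 1 then (if p.2.2 = 1 then a p.2.1 else !a p.2.1)
    else decide (∃ k < p.2.2, a (lit φ p.2.1 k).1 = (lit φ p.2.1 k).2)
  have g0 : g c0 = false := rfl
  have g1 : g c1 = true := rfl
  have glt : ∀ x, g (lt x true) = a x := fun x => rfl
  have glf : ∀ x, g (lt x false) = !a x := fun x => rfl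
  have gsv : ∀ j k, g (sv j k) = decide (∃ k' < k, a (lit φ j k').1 = (lit φ j k').2) :=
    fun j k => rfl
  refine ⟨g, by rw [g0, g1]; simp, fun t ht => ?_⟩
  rcases List.mem_append.1 ht with ht | ht
  · obtain ⟨x, -, ht⟩ := List.mem_flatMap.1 ht
    simp only [List.mem_cons, List.not_mem_nil, or_false] at ht
    rcases ht with rfl | rfl
    · simp only [g1, glt, glf]
      cases a x <;> simp
    · simp only [g0, glt, glf]
      cases a x <;> simp
  · obtain ⟨j, hj, ht⟩ := List.mem_flatMap.1 ht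
    rw [List.mem_range] at hj
    rcases List.mem_cons.1 ht with rfl | ht
    · left
      simp only [g0, gsv]
      simp
    rcases List.mem_cons.1 ht with rfl | ht
    · left
      simp only [g1, gsv]
      obtain ⟨l, hl, hal⟩ := ha _ (cl_mem hj)
      obtain ⟨k, hk, rfl⟩ := exists_lit hl
      symm
      rw [decide_eq_true_iff]
      exact ⟨k, hk, hal⟩
    · obtain ⟨k, hk, rfl⟩ := List.mem_map.1 ht
      simp only [gsv]
      by_cases h1 : ∃ k' < k, a (lit φ j k').1 = (lit φ j k').2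
      · left
        rw [decide_eq_true h1, decide_eq_true_iff]
        obtain ⟨k', hk', h2⟩ := h1
        exact ⟨k', by omega, h2⟩
      · by_cases h2 : a (lit φ j k).1 = (lit φ j k).2
        · right
          have e1 : g (lt (lit φ j k).1 (lit φ j k).2) = true := by
            cases hs : (lit φ j k).2 with
            | true => rw [glt, h2, hs]
            | false => rw [glf, h2, hs]; rfl
          rw [e1, decide_eq_true_iff]
          exact ⟨k, by omega, h2⟩
        · left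
          rw [decide_eq_false h1, decide_eq_false_iff_not]
          rintro ⟨k', hk', h3⟩
          rcases Nat.lt_succ_iff_lt_or_eq.1 hk' with h4 | h4
          · exact h1 ⟨k', h4, h3⟩
          · rw [h4] at h3
            exact h2 h3

/-! ### Numbering -/

/-- The names. -/
def nms (φ : CNF ℕ) : List Nm :=
  (c0 :: c1 :: (trs φ).flatMap fun t => [t.1, t.2.1, t.2.2]).dedup

/-- The triples, with additional triples `(z; c0, c1)` for all names `z`. -/
def trA (φ : CNF ℕ) : List (Nm × Nm × Nm) := trs φ ++ (nms φ).map fun z => (z, c0, c1)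

/-- The triples of numbers. -/
def trN (φ : CNF ℕ) : List (ℕ × ℕ × ℕ) :=
  (trA φ).map fun t =>
    (List.idxOf t.1 (nms φ), List.idxOf t.2.1 (nms φ), List.idxOf t.2.2 (nms φ))

theorem c0_mem (φ : CNF ℕ) : c0 ∈ nms φ := List.mem_dedup.2 (by simp)

theorem c1_mem (φ : CNF ℕ) : c1 ∈ nms φ := List.mem_dedup.2 (by simp)

theorem trs_mem {φ : CNF ℕ} {t : Nm × Nm × Nm} (ht : t ∈ trs φ) :
    t.1 ∈ nms φ ∧ t.2.1 ∈ nms φ ∧ t.2.2 ∈ nms φ := by
  have h : ∀ a, a ∈ [t.1, t.2.1, t.2.2] → a ∈ nms φ := by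
    intro a ha
    exact List.mem_dedup.2 (List.mem_cons_of_mem _ (List.mem_cons_of_mem _
      (List.mem_flatMap.2 ⟨t, ht, ha⟩)))
  exact ⟨h _ (by simp), h _ (by simp), h _ (by simp)⟩

theorem trA_mem {φ : CNF ℕ} {t : Nm × Nm × Nm} (ht : t ∈ trA φ) :
    t.1 ∈ nms φ ∧ t.2.1 ∈ nms φ ∧ t.2.2 ∈ nms φ := by
  rcases List.mem_append.1 ht with ht | ht
  · exact trs_mem ht
  · obtain ⟨z, hz, rfl⟩ := List.mem_map.1 ht
    exact ⟨hz, c0_mem φ, c1_mem φ⟩

theorem trN_lt {φ : CNF ℕ} {t : ℕ × ℕ × ℕ} (ht : t ∈ trN φ) :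
    t.1 < (nms φ).length ∧ t.2.1 < (nms φ).length ∧ t.2.2 < (nms φ).length := by
  obtain ⟨s, hs, rfl⟩ := List.mem_map.1 ht
  obtain ⟨h1, h2, h3⟩ := trA_mem hs
  exact ⟨List.idxOf_lt_length_iff.2 h1, List.idxOf_lt_length_iff.2 h2,
    List.idxOf_lt_length_iff.2 h3⟩

/-- The entries of the triples as functions. -/
def fA (k : ℕ) (T : List (ℕ × ℕ × ℕ)) (hT : ∀ t ∈ T, t.1 < k ∧ t.2.1 < k ∧ t.2.2 < k)
    (i : Fin T.length) : Fin k := ⟨(T[i]).1, (hT _ (List.getElem_mem i.2)).1⟩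
def fC (k : ℕ) (T : List (ℕ × ℕ × ℕ)) (hT : ∀ t ∈ T, t.1 < k ∧ t.2.1 < k ∧ t.2.2 < k)
    (i : Fin T.length) : Fin k := ⟨(T[i]).2.1, (hT _ (List.getElem_mem i.2)).2.1⟩
def fD (k : ℕ) (T : List (ℕ × ℕ × ℕ)) (hT : ∀ t ∈ T, t.1 < k ∧ t.2.1 < k ∧ t.2.2 < k)
    (i : Fin T.length) : Fin k := ⟨(T[i]).2.2, (hT _ (List.getElem_mem i.2)).2.2⟩

theorem special (φ : CNF ℕ) (i : Fin (nms φ).length) :
    ∃ t : Fin (trN φ).length, fA _ (trN φ) (fun _ => trN_lt) t = i ∧
      fC _ (trN φ) (fun _ => trN_lt) t = ⟨_, List.idxOf_lt_length_iff.2 (c0_mem φ)⟩ ∧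
      fD _ (trN φ) (fun _ => trN_lt) t = ⟨_, List.idxOf_lt_length_iff.2 (c1_mem φ)⟩ := by
  have h1 : ((nms φ)[i], c0, c1) ∈ trA φ :=
    List.mem_append_right _ (List.mem_map.2 ⟨_, List.getElem_mem i.2, rfl⟩)
  have h2 : (i.1, List.idxOf c0 (nms φ), List.idxOf c1 (nms φ)) ∈ trN φ := by
    refine List.mem_map.2 ⟨_, h1, ?_⟩
    simp only
    congr 1
    exact (List.nodup_dedup _).idxOf_getElem i.1 i.2
  obtain ⟨t, ht, he⟩ := List.getElem_of_mem h2
  refine ⟨⟨t, ht⟩, ?_, ?_, ?_⟩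
  · exact Fin.ext (by simp only [fA, Fin.getElem_fin, he])
  · exact Fin.ext (by simp only [fC, Fin.getElem_fin, he])
  · exact Fin.ext (by simp only [fD, Fin.getElem_fin, he])

/-- Satisfiability and solutions. -/
theorem sat_iff_sol (φ : CNF ℕ) : φ.Sat ↔ ∃ f, Sol (fA _ (trN φ) (fun _ => trN_lt))
    (fC _ (trN φ) (fun _ => trN_lt)) (fD _ (trN φ) (fun _ => trN_lt)) f := by
  constructor
  · intro h
    obtain ⟨g, hg0, hg⟩ := nsol_of_sat h
    have hidx : ∀ a (h : a ∈ nms φ), (nms φ)[List.idxOf a (nms φ)]'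
        (List.idxOf_lt_length_iff.2 h) = a := fun a h => List.getElem_idxOf _
    have hgA : ∀ t ∈ trA φ, g t.1 = g t.2.1 ∨ g t.1 = g t.2.2 := by
      intro t ht
      rcases List.mem_append.1 ht with ht | ht
      · exact hg t ht
      · obtain ⟨z, -, rfl⟩ := List.mem_map.1 ht
        simp only
        revert hg0
        cases g z <;> cases g c0 <;> cases g c1 <;> simp
    refine ⟨fun i => g ((nms φ)[i]), ⟨⟨⟨_, List.idxOf_lt_length_iff.2 (c0_mem φ)⟩,
      ⟨_, List.idxOf_lt_length_iff.2 (c1_mem φ)⟩, ?_⟩, ?_⟩⟩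
    · simp only [Fin.getElem_fin, hidx _ (c0_mem φ), hidx _ (c1_mem φ)]
      exact hg0
    · intro t
      have h1 : (trN φ)[t] ∈ trN φ := List.getElem_mem t.2
      obtain ⟨s, hs, he⟩ := List.mem_map.1 h1
      obtain ⟨m1, m2, m3⟩ := trA_mem hs
      have h2 := hgA s hs
      have k1 : fA _ (trN φ) (fun _ => trN_lt) t = ⟨List.idxOf s.1 (nms φ),
          List.idxOf_lt_length_iff.2 m1⟩ := Fin.ext (by simp only [fA, ← he])
      have k2 : fC _ (trN φ) (fun _ => trN_lt) t = ⟨List.idxOf s.2.1 (nms φ),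
          List.idxOf_lt_length_iff.2 m2⟩ := Fin.ext (by simp only [fC, ← he])
      have k3 : fD _ (trN φ) (fun _ => trN_lt) t = ⟨List.idxOf s.2.2 (nms φ),
          List.idxOf_lt_length_iff.2 m3⟩ := Fin.ext (by simp only [fD, ← he])
      simp only [k1, k2, k3, Fin.getElem_fin, hidx _ m1, hidx _ m2, hidx _ m3]
      exact h2
  · rintro ⟨f, ⟨⟨i, j, hij⟩, hf⟩⟩
    let g : Nm → Bool := fun a => if h : List.idxOf a (nms φ) < (nms φ).length then f ⟨_, h⟩
      else false
    have hg : ∀ a (h : a ∈ nms φ), g a = f ⟨_, List.idxOf_lt_length_iff.2 h⟩ :=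
      fun a h => dif_pos (List.idxOf_lt_length_iff.2 h)
    refine sat_of_nsol (g := g) ⟨?_, ?_⟩
    · rw [hg _ (c0_mem φ), hg _ (c1_mem φ)]
      intro e
      have key : ∀ k, f k = f ⟨_, List.idxOf_lt_length_iff.2 (c0_mem φ)⟩ := by
        intro k
        obtain ⟨t, h1, h2, h3⟩ := special φ k
        have := hf t
        rw [h1, h2, h3, ← e, or_self] at this
        exact this
      exact hij ((key i).trans (key j).symm)
    · intro s hs
      obtain ⟨m1, m2, m3⟩ := trs_mem hs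
      rw [hg _ m1, hg _ m2, hg _ m3]
      have h1 : (List.idxOf s.1 (nms φ), List.idxOf s.2.1 (nms φ), List.idxOf s.2.2 (nms φ)) ∈
          trN φ := List.mem_map.2 ⟨s, List.mem_append_left _ hs, rfl⟩
      obtain ⟨t, ht, he⟩ := List.getElem_of_mem h1
      have h2 := hf ⟨t, ht⟩
      have k1 : fA _ (trN φ) (fun _ => trN_lt) ⟨t, ht⟩ = ⟨List.idxOf s.1 (nms φ),
          List.idxOf_lt_length_iff.2 m1⟩ := Fin.ext (by simp only [fA, Fin.getElem_fin, he])
      have k2 : fC _ (trN φ) (fun _ => trN_lt) ⟨t, ht⟩ = ⟨List.idxOf s.2.1 (nms φ),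
          List.idxOf_lt_length_iff.2 m2⟩ := Fin.ext (by simp only [fC, Fin.getElem_fin, he])
      have k3 : fD _ (trN φ) (fun _ => trN_lt) ⟨t, ht⟩ = ⟨List.idxOf s.2.2 (nms φ),
          List.idxOf_lt_length_iff.2 m3⟩ := Fin.ext (by simp only [fD, Fin.getElem_fin, he])
      rw [k1, k2, k3] at h2
      exact h2

end Pool.Agent.W_9f10ef_h38
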